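import Pool.Agent.Helper49.KX.St

/-!
# Project KX (MP_c973ff_an), module WIN: window data
-/

set_option autoImplicit false

namespace Pool.Agent.Helper90.KX

open Pool.Agent.Helper49.KX
open Finset Module

section

variable {r : ℕ}

/-- the vectors vanishing on `S` -/
def Zs (S : Finset (Fin r)) : Submodule ℂ (Fin r → ℂ) where
  carrier := {w | ∀ i ∈ S, w i = 0}
  add_mem' := by
    intro a b ha hb i hi
    rw [Pi.add_apply, ha i hi, hb i hi, add_zero]
  zero_mem' := by
    intro i _
    rfl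
  smul_mem' := by
    intro t a ha i hi
    rw [Pi.smul_apply, ha i hi, smul_zero]

theorem mem_Zs (S : Finset (Fin r)) (w : Fin r → ℂ) : w ∈ Zs S ↔ ∀ i ∈ S, w i = 0 := Iff.rfl

/-- the dimension of `Zs S` is at least `r - |S|` -/
theorem fin_Zs (S : Finset (Fin r)) : r ≤ finrank ℂ (Zs S) + S.card := by
  set ρ : (Fin r → ℂ) →ₗ[ℂ] (S → ℂ) := LinearMap.funLeft ℂ ℂ (Subtype.val : S → Fin r) with hρ
  have h1 := LinearMap.finrank_range_add_finrank_ker ρ
  have h2 : LinearMap.ker ρ = Zs S := by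
    ext w
    rw [LinearMap.mem_ker, mem_Zs]
    constructor
    · intro h i hi
      have := congrFun h (⟨i, hi⟩ : S)
      simpa [hρ, LinearMap.funLeft_apply] using this
    · intro h
      funext i
      simpa [hρ, LinearMap.funLeft_apply] using h i.1 i.2
  have h3 : finrank ℂ (LinearMap.range ρ) ≤ S.card := by
    have h4 := Submodule.finrank_le (LinearMap.range ρ)
    rw [Module.finrank_fintype_fun_eq_card] at h4
    simpa using h4
  rw [h2, Module.finrank_fintype_fun_eq_card, Fintype.card_fin] at h1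
  omega

/-- the dimension of the image of the vectors supported in `T` -/
theorem fin_E (T : Finset (Fin r)) (η : Matrix (Fin r) (Fin r) ℂ)
    (hη : ∀ τ ∈ T, ∀ τ' ∈ T, η τ' τ = if τ' = τ then 1 else 0) :
    T.card ≤ finrank ℂ ((Zs (univ \ T)).map η.mulVecLin) := by
  have hmem : ∀ τ : T, η.mulVecLin (Pi.single τ.1 1) ∈ (Zs (univ \ T)).map η.mulVecLin := by
    intro τ
    refine Submodule.mem_map_of_mem ?_
    rw [mem_Zs]
    intro i hi
    have h1 : i ≠ τ.1 := by
      rintro rfl
      exact (Finset.mem_sdiff.1 hi).2 τ.2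
    simp [h1]
  set v : T → (Zs (univ \ T)).map η.mulVecLin := fun τ => ⟨_, hmem τ⟩ with hv
  have hli : LinearIndependent ℂ v := by
    rw [Fintype.linearIndependent_iff]
    intro a ha τ'
    have h1 : ∑ τ : T, a τ • (η.mulVecLin (Pi.single τ.1 1)) = 0 := by
      have h2 := congrArg (fun x : (Zs (univ \ T)).map η.mulVecLin => (x : Fin r → ℂ)) ha
      simpa [hv] using h2
    have h3 := congrFun h1 τ'.1
    rw [Finset.sum_apply] at h3
    simp only [Pi.smul_apply, Matrix.mulVecLin_apply, Matrix.mulVec_single_one, Matrix.col_apply,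
      smul_eq_mul, Pi.zero_apply] at h3
    rw [Finset.sum_congr rfl (g := fun τ : T => if τ' = τ then a τ else 0)] at h3
    · simpa using h3
    · intro τ _
      rw [hη τ.1 τ.2 τ'.1 τ'.2]
      by_cases h : τ' = τ
      · rw [if_pos h, if_pos (by rw [h]), mul_one]
      · rw [if_neg h, if_neg (fun h' => h (Subtype.ext h')), mul_zero]
  have := hli.fintype_card_le_finrank
  simpa using this

end

/-- WIN. -/
theorem hWIN : StWin := by
  intro hWia r S T c η hST hcard hη
  set Z := Zs S with hZ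
  set ET := Zs (univ \ T) with hET
  have hfr : finrank ℂ (Fin r → ℂ) = r := by
    rw [Module.finrank_fintype_fun_eq_card, Fintype.card_fin]
  obtain ⟨P, Q, F, R, hP, hQ, hF, hFR, hdim, htop⟩ := hWia (Fin r → ℂ)
    (Z.map c.mulVecLin) (Z.map (1 - c).mulVecLin) (ET.map η.mulVecLin) S.card
    (by
      have h1 : Z ≤ Z.map c.mulVecLin ⊔ Z.map (1 - c).mulVecLin := by
        intro w hw
        rw [Submodule.mem_sup]
        refine ⟨c.mulVecLin w, Submodule.mem_map_of_mem hw, (1 - c).mulVecLin w,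
          Submodule.mem_map_of_mem hw, ?_⟩
        rw [Matrix.mulVecLin_apply, Matrix.mulVecLin_apply, Matrix.sub_mulVec, Matrix.one_mulVec]
        abel
      have h2 := Submodule.finrank_mono h1
      have h3 : r ≤ finrank ℂ Z + S.card := fin_Zs S
      rw [hfr]
      omega)
    (le_trans hcard (fin_E T η hη))
  -- the basis
  set p := finrank ℂ P with hp
  set q := finrank ℂ Q with hq
  set f := finrank ℂ F with hf
  have hR' : finrank ℂ R = f := hFR.symm
  let bP : Basis (Fin p) ℂ P := Module.finBasis ℂ P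
  let bQ : Basis (Fin q) ℂ Q := Module.finBasis ℂ Q
  let bF : Basis (Fin f) ℂ F := Module.finBasis ℂ F
  let bR : Basis (Fin f) ℂ R := Module.finBasisOfFinrankEq ℂ R hR'
  let v : Fin p ⊕ Fin q ⊕ Fin f ⊕ Fin f → (Fin r → ℂ) :=
    Sum.elim (fun a => bP a) (Sum.elim (fun a => bQ a) (Sum.elim (fun a => bF a) (fun a => bR a)))
  have hspan : ⊤ ≤ Submodule.span ℂ (Set.range v) := by
    rw [← htop]
    have hsub : ∀ {m : ℕ} (W : Submodule ℂ (Fin r → ℂ)) (b : Basis (Fin m) ℂ W),
        (∀ a, ((b a : W) : Fin r → ℂ) ∈ Submodule.span ℂ (Set.range v)) →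
        W ≤ Submodule.span ℂ (Set.range v) := by
      intro m W b hb w hw
      have h1 := b.sum_repr ⟨w, hw⟩
      have h2 : w = ∑ a, (b.repr ⟨w, hw⟩ a) • ((b a : W) : Fin r → ℂ) := by
        have h3 := congrArg (Submodule.subtype W) h1
        rw [map_sum] at h3
        simp only [map_smul, Submodule.subtype_apply] at h3
        exact h3.symm
      rw [h2]
      exact Submodule.sum_mem _ fun a _ => Submodule.smul_mem _ _ (hb a)
    refine sup_le (sup_le (sup_le ?_ ?_) ?_) ?_
    · exact hsub P bP fun a => Submodule.subset_span ⟨Sum.inl a, rfl⟩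
    · exact hsub Q bQ fun a => Submodule.subset_span ⟨Sum.inr (Sum.inl a), rfl⟩
    · exact hsub F bF fun a => Submodule.subset_span ⟨Sum.inr (Sum.inr (Sum.inl a)), rfl⟩
    · exact hsub R bR fun a => Submodule.subset_span ⟨Sum.inr (Sum.inr (Sum.inr a)), rfl⟩
  have hcd : Fintype.card (Fin p ⊕ Fin q ⊕ Fin f ⊕ Fin f) = r := by
    simp only [Fintype.card_sum, Fintype.card_fin]
    rw [hfr, hR'] at hdim
    omega
  have hli : LinearIndependent ℂ v :=
    linearIndependent_of_top_le_span_of_card_eq_finrank hspan (by rw [hcd, hfr])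
  let e : Fin r ≃ Fin p ⊕ Fin q ⊕ Fin f ⊕ Fin f :=
    (Fintype.equivFinOfCardEq hcd).symm
  -- preimages
  have hwP : ∀ a, ∃ w ∈ Z, c.mulVecLin w = bP a := fun a => by
    have := hP (bP a).2
    rwa [Submodule.mem_map] at this
  have hwQ : ∀ a, ∃ w ∈ Z, (1 - c).mulVecLin w = bQ a := fun a => by
    have := hQ (bQ a).2
    rwa [Submodule.mem_map] at this
  have hwF : ∀ a, ∃ w ∈ ET, η.mulVecLin w = bF a := fun a => by
    have := hF (bF a).2
    rwa [Submodule.mem_map] at this
  choose wP hwP1 hwP2 using hwP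
  choose wQ hwQ1 hwQ2 using hwQ
  choose wF hwF1 hwF2 using hwF
  let w : Fin p ⊕ Fin q ⊕ Fin f ⊕ Fin f → (Fin r → ℂ) :=
    Sum.elim wP (Sum.elim wQ (Sum.elim wF (fun a => bR a)))
  let κ' : Fin p ⊕ Fin q ⊕ Fin f ⊕ Fin f → Fin 4 :=
    Sum.elim (fun _ => 0) (Sum.elim (fun _ => 1) (Sum.elim (fun _ => 2) (fun _ => 3)))
  let sw : Fin p ⊕ Fin q ⊕ Fin f ⊕ Fin f ≃ Fin p ⊕ Fin q ⊕ Fin f ⊕ Fin f :=
    Equiv.sumCongr (Equiv.refl _) (Equiv.sumCongr (Equiv.refl _) (Equiv.sumComm _ _))
  have hsw : ∀ x, sw (sw x) = x := by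
    rintro (a | a | a | a) <;> rfl
  have hκ2 : ∀ x, κ' x = 2 → κ' (sw x) = 3 := by
    rintro (a | a | a | a) h
    · exact absurd (show (0 : Fin 4) = 2 from h) (by decide)
    · exact absurd (show (1 : Fin 4) = 2 from h) (by decide)
    · rfl
    · exact absurd (show (3 : Fin 4) = 2 from h) (by decide)
  have hκ3 : ∀ x, κ' x = 3 → κ' (sw x) = 2 := by
    rintro (a | a | a | a) h
    · exact absurd (show (0 : Fin 4) = 3 from h) (by decide)
    · exact absurd (show (1 : Fin 4) = 3 from h) (by decide)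
    · exact absurd (show (2 : Fin 4) = 3 from h) (by decide)
    · rfl
  have hzero : ∀ x, κ' x ≠ 3 → ∀ i ∈ S, w x i = 0 := by
    rintro (a | a | a | a) h i hi
    · exact hwP1 a i hi
    · exact hwQ1 a i hi
    · exact hwF1 a i (Finset.mem_sdiff.2 ⟨Finset.mem_univ _, Finset.disjoint_left.1 hST hi⟩)
    · exact absurd rfl h
  have hmul : ∀ (A : Matrix (Fin r) (Fin r) ℂ) (i l : Fin r),
      (A * Matrix.of fun i l => w (e l) i) i l = A.mulVecLin (w (e l)) i := by
    intro A i l
    rw [Matrix.mul_apply, Matrix.mulVecLin_apply, Matrix.mulVec, dotProduct]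
    rfl
  have hcol : ∀ x, ∀ i, (if κ' x = 0 then c.mulVecLin (w x) i
      else if κ' x = 1 then w x i - c.mulVecLin (w x) i
      else if κ' x = 2 then η.mulVecLin (w x) i else w x i) = v x i := by
    rintro (a | a | a | a) i
    · show c.mulVecLin (wP a) i = (bP a : Fin r → ℂ) i
      rw [hwP2]
    · show wQ a i - c.mulVecLin (wQ a) i = (bQ a : Fin r → ℂ) i
      rw [← hwQ2, Matrix.mulVecLin_apply, Matrix.mulVecLin_apply, Matrix.sub_mulVec,
        Matrix.one_mulVec, Pi.sub_apply]
    · show η.mulVecLin (wF a) i = (bF a : Fin r → ℂ) i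
      rw [hwF2]
    · rfl
  refine ⟨fun l => κ' (e l), (e.trans sw).trans e.symm, Matrix.of fun i l => w (e l) i,
    ⟨?_, ?_, ?_, ?_⟩, ?_⟩
  · intro i
    simp only [Equiv.trans_apply, Equiv.apply_symm_apply, hsw, Equiv.symm_apply_apply]
  · intro i hi
    simp only [Equiv.trans_apply, Equiv.apply_symm_apply]
    exact hκ2 _ hi
  · intro i hi
    simp only [Equiv.trans_apply, Equiv.apply_symm_apply]
    exact hκ3 _ hi
  · intro i l hl hi
    exact hzero (e l) hl i hi
  · rw [← Matrix.linearIndependent_cols_iff_isUnit]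
    have hcols : (Gm (fun l => κ' (e l)) (Matrix.of fun i l => w (e l) i) c η).col =
        fun l => v (e l) := by
      funext l i
      rw [Matrix.col_apply, ← hcol (e l) i]
      unfold Gm
      rw [Matrix.sub_apply, hmul, hmul]
      rfl
    rw [hcols]
    exact hli.comp e e.injective

end Pool.Agent.Helper90.KX
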